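import Mathlib

/-!
# No envelope of `ℤ` has a Galois group isomorphic to `S₃`
-/

set_option autoImplicit false

namespace Pool.Agent.Results.MP_cdb8a2_al.NoSymmetricGalois

universe u v

section defs

variable {H : Type v} {G : Type u} [Group H] [Group G]

/-- `φ : H → G` is an envelope: composition with `φ` is a surjection `End G → Hom(H, G)`, and every
endomorphism `f` of `G` with `f φ = φ` is an automorphism. -/
def IsEnvelope (φ : H →* G) : Prop :=
  (∀ ψ : H →* G, ∃ f : G →* G, f.comp φ = ψ) ∧
    ∀ f : G →* G, f.comp φ = φ → Function.Bijective f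

/-- The Galois group of `φ`: the automorphisms `f` of `G` with `f φ = φ`. -/
def Gal (φ : H →* G) : Subgroup (MulAut G) where
  carrier := {f | ∀ h, f (φ h) = φ h}
  one_mem' _ := rfl
  mul_mem' {a b} ha hb h := by rw [MulAut.mul_apply, hb h, ha h]
  inv_mem' {a} ha h := by
    have := ha h
    rw [← this, MulAut.inv_apply_self, this]

end defs

/-- In the commutative case the endomorphisms fixing `g` commute if there are six of them. -/
theorem comp_comm {G : Type u} [CommGroup G] (g : G)
    (hcard : Nat.card {f : G →* G // f g = g} = 6) (f h : G →* G) (hf : f g = g) (hh : h g = g)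
    (x : G) : f (h x) = h (f x) := by
  let I : Subgroup (G →* G) :=
    { carrier := {a | a g = 1}
      one_mem' := rfl
      mul_mem' := fun {a b} ha hb => by
        change a g * b g = 1
        rw [show a g = 1 from ha, show b g = 1 from hb, one_mul]
      inv_mem' := fun {a} ha => by
        change (a g)⁻¹ = 1
        rw [show a g = 1 from ha, inv_one] }
  let e : {f : G →* G // f g = g} ≃ I :=
    { toFun := fun f => ⟨f.1 * (MonoidHom.id G)⁻¹, by
        change f.1 g * g⁻¹ = 1
        rw [f.2, mul_inv_cancel]⟩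
      invFun := fun a => ⟨a.1 * MonoidHom.id G, by
        change a.1 g * g = g
        rw [show a.1 g = 1 from a.2, one_mul]⟩
      left_inv := fun f => Subtype.ext (by simp)
      right_inv := fun a => Subtype.ext (by simp) }
  have hI : Nat.card I = 6 := by rw [← Nat.card_congr e, hcard]
  have hfin : Finite I := Nat.finite_of_card_ne_zero (by rw [hI]; norm_num)
  have hsq : Squarefree 6 := by
    rw [show (6 : ℕ) = 2 * 3 by norm_num, Nat.squarefree_mul (by norm_num)]
    exact ⟨Nat.prime_two.squarefree, Nat.prime_three.squarefree⟩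
  have : IsZGroup I := IsZGroup.of_squarefree (by rw [hI]; exact hsq)
  have hcyc : IsCyclic I := inferInstance
  obtain ⟨t, ht⟩ := hcyc.exists_generator
  obtain ⟨m, hm⟩ := ht (e ⟨f, hf⟩)
  obtain ⟨n, hn⟩ := ht (e ⟨h, hh⟩)
  have h1 : ∀ x, f x = t.1 x ^ m * x := by
    intro x
    have h3 := DFunLike.congr_fun (congrArg Subtype.val hm) x
    change t.1 x ^ m = f x * x⁻¹ at h3
    rw [h3, inv_mul_cancel_right]
  have h2 : ∀ x, h x = t.1 x ^ n * x := by
    intro x
    have h3 := DFunLike.congr_fun (congrArg Subtype.val hn) x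
    change t.1 x ^ n = h x * x⁻¹ at h3
    rw [h3, inv_mul_cancel_right]
  rw [h2 x, h1 x, map_mul, map_mul, map_zpow, map_zpow, h1 x, h2 x, h1 (t.1 x), h2 (t.1 x),
    mul_zpow, mul_zpow, ← zpow_mul, ← zpow_mul, mul_comm n m]
  simp only [mul_assoc]
  congr 1
  simp only [← mul_assoc]
  congr 1
  exact mul_comm _ _

theorem main {G : Type u} [Group G] (φ : Multiplicative ℤ →* G) (henv : IsEnvelope φ)
    (e : Gal φ ≃* Equiv.Perm (Fin 3)) : False := by
  obtain ⟨g, hg⟩ : ∃ g, g = φ (Multiplicative.ofAdd 1) := ⟨_, rfl⟩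
  have hfix : ∀ f : G →* G, f g = g → f.comp φ = φ := by
    intro f hf
    refine MonoidHom.ext_mint ?_
    rw [MonoidHom.comp_apply, ← hg, hf]
  have hbij : ∀ f : G →* G, f g = g → Function.Bijective f := fun f hf => henv.2 f (hfix f hf)
  have hmem : ∀ f : MulAut G, f ∈ Gal φ ↔ f g = g := by
    intro f
    constructor
    · intro hf
      rw [hg]; exact hf _
    · intro hf h
      exact DFunLike.congr_fun (hfix f.toMonoidHom hf) h
  -- `g` is central
  have hcent : ∀ x, g * x = x * g := by
    let c : Gal φ := ⟨MulAut.conj g, (hmem _).2 (by simp)⟩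
    have h1 : ∀ f : Gal φ, f * c = c * f := by
      intro f
      apply Subtype.ext
      ext x
      change f.1 (g * x * g⁻¹) = g * f.1 x * g⁻¹
      rw [map_mul, map_mul, map_inv, (hmem _).1 f.2]
    have h2 : ∀ σ : Equiv.Perm (Fin 3), σ * e c = e c * σ := by
      intro σ
      obtain ⟨f, rfl⟩ := e.surjective σ
      rw [← map_mul, h1 f, map_mul]
    have h3 : ∀ τ : Equiv.Perm (Fin 3), (∀ σ, σ * τ = τ * σ) → τ = 1 := by decide
    have h4 : c = 1 := e.injective (by rw [h3 _ h2, map_one])
    intro x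
    have h5 := DFunLike.congr_fun (congrArg Subtype.val h4) x
    change g * x * g⁻¹ = x at h5
    exact mul_inv_eq_iff_eq_mul.1 h5
  let q : G →* Equiv.Perm (Fin 3) := e.toMonoidHom.comp ((MulAut.conj).codRestrict (Gal φ)
    fun x => (hmem _).2 (by rw [MulAut.conj_apply, ← hcent x, mul_inv_cancel_right]))
  have hq1 : ∀ x, q x = 1 → ∀ y, x * y = y * x := by
    intro x hx y
    have h1 : (⟨MulAut.conj x, (hmem _).2 (by
      rw [MulAut.conj_apply, ← hcent x, mul_inv_cancel_right])⟩ : Gal φ) = 1 :=
      e.injective (by rw [map_one]; exact hx)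
    have h5 := DFunLike.congr_fun (congrArg Subtype.val h1) y
    change x * y * x⁻¹ = y at h5
    exact mul_inv_eq_iff_eq_mul.1 h5
  have hqf : ∀ (f : Gal φ) (x : G), q (f.1 x) = e f * q x * (e f)⁻¹ := by
    intro f x
    change e _ = e f * e _ * (e f)⁻¹
    rw [← map_inv, ← map_mul, ← map_mul]
    congr 1
    apply Subtype.ext
    ext y
    change f.1 x * y * (f.1 x)⁻¹ = f.1 (x * (f.1⁻¹ y) * x⁻¹)
    rw [map_mul, map_mul, map_inv, MulAut.apply_inv_self]
  by_cases hs : ∃ x, Equiv.Perm.sign (q x) = -1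
  · obtain ⟨x, hx⟩ := hs
    let c : Equiv.Perm (Fin 3) := finRotate 3
    obtain ⟨τ, hτ⟩ : ∃ τ, τ = q x := ⟨_, rfl⟩
    rw [← hτ] at hx
    -- an element over the rotation
    obtain ⟨y, hy⟩ : ∃ y, q y = c := by
      obtain ⟨f, hf⟩ := e.surjective c
      refine ⟨(f.1 x * x⁻¹)⁻¹, ?_⟩
      rw [map_inv, map_mul, hqf, hf, map_inv, ← hτ]
      clear hτ
      revert τ
      decide
    have hcc : τ * c * τ⁻¹ = c⁻¹ := by
      clear hτ
      revert τ
      decide
    have hττ : τ * τ = 1 := by
      clear hτ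
      revert τ
      decide
    have hc3 : c ^ 3 = 1 := by decide
    obtain ⟨t, ht⟩ : ∃ t, t = y⁻¹ * (x * y * x⁻¹) := ⟨_, rfl⟩
    have hqt : q t = c := by
      rw [ht, map_mul, map_inv, map_mul, map_mul, map_inv, hy, ← hτ, hcc]
      decide
    have hyx : y * (x * y * x⁻¹) = (x * y * x⁻¹) * y := by
      -- `x y x⁻¹ y` is central
      have h1 : q ((x * y * x⁻¹) * y) = 1 := by
        rw [map_mul, map_mul, map_mul, map_inv, hy, ← hτ, hcc, inv_mul_cancel]
      have h2 := hq1 _ h1 y
      have h3 : y * (x * y * x⁻¹) * y = (x * y * x⁻¹) * y * y := by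
        rw [h2]; group
      exact mul_right_cancel h3
    have ht3 : t ^ 3 = 1 := by
      have hcomm : Commute y⁻¹ (x * y * x⁻¹) := (show Commute y (x * y * x⁻¹) from hyx).inv_left
      rw [ht, hcomm.mul_pow, inv_pow, conj_pow]
      have h1 : q (y ^ 3) = 1 := by rw [map_pow, hy, hc3]
      have h2 := hq1 _ h1 x
      rw [← h2, mul_inv_cancel_right, inv_mul_cancel]
    have hxt : x * t * x⁻¹ = t⁻¹ := by
      have h1 : q (x * x) = 1 := by rw [map_mul, ← hτ, hττ]
      have h2 := hq1 _ h1 y
      have h3 : x * (x * y * x⁻¹) * x⁻¹ = y := by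
        calc x * (x * y * x⁻¹) * x⁻¹ = (x * x) * y * (x * x)⁻¹ := by group
          _ = y := by rw [h2, mul_inv_cancel_right]
      calc x * t * x⁻¹ = (x * y * x⁻¹)⁻¹ * (x * (x * y * x⁻¹) * x⁻¹) := by rw [ht]; group
        _ = (x * y * x⁻¹)⁻¹ * y := by rw [h3]
        _ = t⁻¹ := by rw [ht]; group
    -- the normal subgroup `T` and its complement `B`
    let T : Subgroup G := Subgroup.zpowers t
    let B : Subgroup G := (Subgroup.zpowers τ).comap q
    have hdec : ∀ σ : Equiv.Perm (Fin 3), ∃ i : Fin 3, ∃ j : Fin 2, σ = τ ^ (j : ℕ) * c ^ (i : ℕ) := by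
      clear hτ
      revert τ
      decide
    have hdecG : ∀ z : G, ∃ (i : ℕ) (j : ℕ) (b : G), q b = 1 ∧ z = x ^ j * t ^ i * b := by
      intro z
      obtain ⟨i, j, hij⟩ := hdec (q z)
      refine ⟨i, j, (x ^ (j : ℕ) * t ^ (i : ℕ))⁻¹ * z, ?_, by group⟩
      rw [map_mul, map_inv, map_mul, map_pow, map_pow, ← hτ, hqt, hij, inv_mul_cancel]
    have hTn : T.Normal := by
      refine ⟨fun a ha z => ?_⟩
      obtain ⟨k, rfl⟩ := ha
      have h1 : z * t * z⁻¹ ∈ T := by
        obtain ⟨i, j, b, hb, rfl⟩ := hdecG z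
        have h2 : x ^ j * t ^ i * b * t * (x ^ j * t ^ i * b)⁻¹ = x ^ j * t * (x ^ j)⁻¹ := by
          have h3 := hq1 b hb t
          calc x ^ j * t ^ i * b * t * (x ^ j * t ^ i * b)⁻¹
              = x ^ j * t ^ i * (b * t * b⁻¹) * (x ^ j * t ^ i)⁻¹ := by group
            _ = x ^ j * t ^ i * t * (x ^ j * t ^ i)⁻¹ := by rw [h3, mul_inv_cancel_right]
            _ = x ^ j * t * (x ^ j)⁻¹ := by group
        rw [h2]
        induction j with
        | zero =>
          rw [pow_zero, one_mul, inv_one, mul_one]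
          exact Subgroup.mem_zpowers t
        | succ j ih =>
          have h4 : x ^ (j + 1) * t * (x ^ (j + 1))⁻¹ = (x ^ j * t * (x ^ j)⁻¹)⁻¹ := by
            calc x ^ (j + 1) * t * (x ^ (j + 1))⁻¹ = x ^ j * (x * t * x⁻¹) * (x ^ j)⁻¹ := by
                  rw [pow_succ]; group
              _ = (x ^ j * t * (x ^ j)⁻¹)⁻¹ := by rw [hxt]; group
          rw [h4]
          refine inv_mem (ih ?_)
          have h3 := hq1 b hb t
          calc x ^ j * t ^ i * b * t * (x ^ j * t ^ i * b)⁻¹
              = x ^ j * t ^ i * (b * t * b⁻¹) * (x ^ j * t ^ i)⁻¹ := by group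
            _ = x ^ j * t ^ i * t * (x ^ j * t ^ i)⁻¹ := by rw [h3, mul_inv_cancel_right]
            _ = x ^ j * t * (x ^ j)⁻¹ := by group
      change z * t ^ k * z⁻¹ ∈ T
      rw [← conj_zpow]
      exact zpow_mem h1 k
    have hdisj : Disjoint B T := by
      rw [Subgroup.disjoint_def]
      rintro a ha ⟨k, rfl⟩
      obtain ⟨m, hm⟩ := ha
      change τ ^ m = q (t ^ k) at hm
      rw [map_zpow, hqt] at hm
      -- `c ^ k = τ ^ m` has order dividing both `2` and `3`
      have h1 : (c ^ k) ^ 3 = 1 := by rw [← zpow_natCast, ← zpow_mul, mul_comm, zpow_mul, zpow_natCast, hc3, one_zpow]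
      have h2 : (c ^ k) ^ 2 = 1 := by
        rw [← hm, ← zpow_natCast, ← zpow_mul, mul_comm, zpow_mul, zpow_natCast, pow_two, hττ,
          one_zpow]
      have h3 : c ^ k = 1 := by
        have := h1
        rwa [pow_succ, h2, one_mul] at this
      have h4 : (3 : ℤ) ∣ k := by
        have h5 : orderOf c = 3 := orderOf_eq_prime hc3 (by decide)
        have := orderOf_dvd_iff_zpow_eq_one.2 h3
        rwa [h5] at this
      obtain ⟨l, rfl⟩ := h4
      change t ^ (3 * l) = 1
      rw [zpow_mul]
      have : t ^ (3 : ℤ) = 1 := by exact_mod_cast ht3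
      rw [this, one_zpow]
    have hcompl : Subgroup.IsComplement' B T := by
      refine Subgroup.isComplement'_of_disjoint_and_mul_eq_univ hdisj ?_
      refine Set.eq_univ_of_forall fun z => ?_
      obtain ⟨i, j, b, hb, rfl⟩ := hdecG z
      refine ⟨x ^ j * b, ?_, t ^ i, ⟨i, by simp⟩, ?_⟩
      · change q (x ^ j * b) ∈ Subgroup.zpowers τ
        rw [map_mul, hb, mul_one, map_pow, ← hτ]
        exact ⟨j, by simp⟩
      · change x ^ j * b * t ^ i = x ^ j * t ^ i * b
        have h3 := hq1 b hb (t ^ i)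
        rw [mul_assoc, h3, mul_assoc]
    let ρ : G →* G := B.subtype.comp (hcompl.QuotientMulEquiv.toMonoidHom.comp (QuotientGroup.mk' T))
    have hρB : ∀ b (hb : b ∈ B), ρ b = b := by
      intro b hb
      have h1 : hcompl.QuotientMulEquiv.symm ⟨b, hb⟩ = QuotientGroup.mk' T b := rfl
      change (hcompl.QuotientMulEquiv (QuotientGroup.mk' T b) : G) = b
      rw [← h1, MulEquiv.apply_symm_apply]
    have hρt : ρ t = 1 := by
      change (hcompl.QuotientMulEquiv (QuotientGroup.mk' T t) : G) = 1
      have h1 : QuotientGroup.mk' T t = 1 :=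
        (QuotientGroup.eq_one_iff t).2 (Subgroup.mem_zpowers t)
      rw [h1, map_one]
      rfl
    have hρg : ρ g = g := by
      refine hρB g ?_
      change q g ∈ Subgroup.zpowers τ
      have h1 : q g = 1 := by
        have h2 : (⟨MulAut.conj g, (hmem _).2 (by
          rw [MulAut.conj_apply, ← hcent g, mul_inv_cancel_right])⟩ : Gal φ) = 1 := by
          apply Subtype.ext
          ext y
          change g * y * g⁻¹ = y
          rw [hcent y, mul_inv_cancel_right]
        change e _ = 1
        rw [← map_one e]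
        exact congrArg e h2
      rw [h1]
      exact one_mem _
    have h1 : t = 1 := (hbij ρ hρg).1 (by rw [hρt, map_one])
    rw [h1, map_one] at hqt
    revert hqt
    decide
  · -- the group is commutative
    push Not at hs
    have hq2 : ∀ x, q x ∈ alternatingGroup (Fin 3) := by
      intro x
      rw [Equiv.Perm.mem_alternatingGroup]
      exact (Int.units_eq_one_or _).resolve_right (hs x)
    have hcyc : IsCyclic (alternatingGroup (Fin 3)) := by
      have : Fact (Nat.Prime 3) := ⟨Nat.prime_three⟩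
      refine isCyclic_of_prime_card (p := 3) ?_
      rw [Nat.card_eq_fintype_card]
      decide
    have hcomm : ∀ a b : G, a * b = b * a := by
      have := MonoidHom.isMulCommutative_of_isCyclic_of_ker_le_center
        (q.codRestrict (alternatingGroup (Fin 3)) hq2) (by
          intro x hx
          rw [MonoidHom.mem_ker] at hx
          rw [Subgroup.mem_center_iff]
          intro y
          exact (hq1 x (congrArg Subtype.val hx) y).symm)
      exact this.is_comm.comm
    let _ : CommGroup G := { ‹Group G› with mul_comm := hcomm }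
    let E : {f : G →* G // f g = g} ≃ Gal φ :=
      { toFun := fun f => ⟨MulEquiv.ofBijective f.1 (hbij f.1 f.2), (hmem _).2 f.2⟩
        invFun := fun f => ⟨f.1.toMonoidHom, (hmem _).1 f.2⟩
        left_inv := fun f => rfl
        right_inv := fun f => by
          apply Subtype.ext
          ext x
          rfl }
    have hcard : Nat.card {f : G →* G // f g = g} = 6 := by
      rw [Nat.card_congr (E.trans e.toEquiv), Nat.card_eq_fintype_card]
      decide
    have h1 : ∀ f h : Gal φ, f * h = h * f := by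
      intro f h
      apply Subtype.ext
      ext x
      exact comp_comm g hcard f.1.toMonoidHom h.1.toMonoidHom ((hmem _).1 f.2) ((hmem _).1 h.2) x
    have h2 : ∀ σ τ : Equiv.Perm (Fin 3), σ * τ = τ * σ := by
      intro σ τ
      obtain ⟨f, rfl⟩ := e.surjective σ
      obtain ⟨h, rfl⟩ := e.surjective τ
      rw [← map_mul, h1, map_mul]
    revert h2
    decide

/-- **Main result.** No envelope of `ℤ` has a Galois group isomorphic to the symmetric group `S₃`;
so the answer to Q1 is no. -/
theorem result :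
    (∀ (G : Type u) [Group G] (φ : Multiplicative ℤ →* G), IsEnvelope φ →
      IsEmpty (Gal φ ≃* Equiv.Perm (Fin 3))) ∧
    ¬ ∀ (K : Type) [Group K] (κ : Cardinal.{u}), ∃ (G : Type u) (_ : Group G)
      (φ : Multiplicative ℤ →* G), IsEnvelope φ ∧ κ ≤ Cardinal.mk G ∧ Nonempty (Gal φ ≃* K) := by
  refine ⟨fun G _ φ h => ⟨fun e => main φ h e⟩, fun h => ?_⟩
  obtain ⟨G, _, φ, h1, -, ⟨e⟩⟩ := h (Equiv.Perm (Fin 3)) 0
  exact main φ h1 e

end Pool.Agent.Results.MP_cdb8a2_al.NoSymmetricGalois
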